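import Pool.Agent.K4H40.NS.Spec

set_option autoImplicit false

namespace Pool.Agent.K4H40.NS

open MvPolynomial Module

theorem mul_mem_hs' {n : ℕ} {K : Type} [Field K] {k : ℕ} {x p : R n K} (hx : x ∈ hs n K 1) (hp : p ∈ hs n K k) :
    x * p ∈ hs n K (k + 1) := by
  rw [mem_homogeneousSubmodule] at *
  have h := hx.mul hp
  rwa [add_comm] at h

theorem rank_aux {n k : ℕ} {K : Type} [Field K] {I : Ideal (R n K)} (s : Sys n k K I)
    (hJ : s.Jd (k + 1) = Id I (k + 1) ⊔ s.Th k) {x j : R n K} (hx : x ∈ hs n K 1) (hj : j ∈ s.Jd (k + 1)) :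
    x * j ∈ s.P := by
  rw [hJ] at hj
  obtain ⟨f, hf, t, ht, rfl⟩ := Submodule.mem_sup.1 hj
  rw [mul_add]
  refine Submodule.add_mem _ ?_ ?_
  · exact Submodule.mem_sup_left (Submodule.subset_span ⟨x, hx, f, hf, rfl⟩)
  · refine Submodule.mem_sup_right ?_
    have hle : s.Th k ≤ (s.Th (k + 1)).comap (LinearMap.mulLeft K x) := by
      refine Submodule.span_le.2 ?_
      rintro _ ⟨i, g, hg, rfl⟩
      refine Submodule.subset_span ⟨i, x * g, mul_mem_hs' hx hg, ?_⟩
      rw [LinearMap.mulLeft_apply]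
      ring
    exact hle ht

/-- the Koszul elements lie in `KP` -/
theorem rank_koszul {n k : ℕ} {K : Type} [Field K] {I : Ideal (R n K)} (s : Sys n k K I)
    (hJ : s.Jd (k + 1) = Id I (k + 1) ⊔ s.Th k) {x y g p q : R n K} (hx : x ∈ hs n K 1) (hy : y ∈ hs n K 1)
    (hg : g ∈ hs n K k) (hp : p ∈ hs n K k) (hq : q ∈ hs n K k) (h1 : y * g - s.ω * p ∈ s.J)
    (h2 : x * g - s.ω * q ∈ s.J) : x * p - y * q ∈ s.KP := by
  refine ⟨?_, Submodule.sub_mem _ (mul_mem_hs' hx hp) (mul_mem_hs' hy hq)⟩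
  show s.ω * (x * p - y * q) ∈ s.P
  have e : s.ω * (x * p - y * q) = y * (x * g - s.ω * q) - x * (y * g - s.ω * p) := by ring
  rw [e]
  refine Submodule.sub_mem _ (rank_aux s hJ hy ?_) (rank_aux s hJ hx ?_)
  · exact ⟨h2, Submodule.sub_mem _ (mul_mem_hs' hx hg) (mul_mem_hs' s.ω_lin hq)⟩
  · exact ⟨h1, Submodule.sub_mem _ (mul_mem_hs' hy hg) (mul_mem_hs' s.ω_lin hp)⟩

theorem rank (hkey : StKEY) : StRANK := by
  intro n k K _ I s hphi hJ
  have h1 : s.Jd (k + 1) ≤ s.KP := fun h hh => ⟨rank_aux s hJ s.ω_lin hh, hh.2⟩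
  refine ⟨h1, fun hfr => ?_⟩
  have hfin : FiniteDimensional K s.KP := Module.finite_of_finrank_pos (by omega)
  by_cases hKP : ∀ h ∈ s.KP, h ∈ s.J
  · have h2 : s.KP ≤ s.Jd (k + 1) := fun h hh => ⟨hKP h hh, hh.2⟩
    have h3 : s.KP = s.Jd (k + 1) := le_antisymm h2 h1
    rw [h3] at hfr
    omega
  · push Not at hKP
    obtain ⟨h, hh, hhJ⟩ := hKP
    obtain ⟨x, hx, y, hy, g, hg, p, hp, q, hq, hyg, hxg, hne⟩ := hkey s hphi h hh hhJ
    have hL : ∀ f ∈ s.J, s.L f = 0 := s.L_zero
    have hd : ∃ a ∈ hs n K k, s.L ((x * p - y * q) * a) ≠ 0 := by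
      by_contra hcon
      push Not at hcon
      refine hne (s.duality (k + 1) (by omega) _
        (Submodule.sub_mem _ (mul_mem_hs' hx hp) (mul_mem_hs' hy hq)) fun g' hg' => ?_)
      have e : 2 * k + 1 - (k + 1) = k := by omega
      rw [e] at hg'
      exact hcon g' hg'
    obtain ⟨a, ha, hLa⟩ := hd
    obtain ⟨r, hr, hyr⟩ := hphi (y * a) (mul_mem_hs' hy ha)
    obtain ⟨t, ht, hxt⟩ := hphi (x * a) (mul_mem_hs' hx ha)
    have he1 : x * p - y * q ∈ s.KP := rank_koszul s hJ hx hy hg hp hq hyg hxg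
    have he2 : x * r - y * t ∈ s.KP := rank_koszul s hJ hx hy ha hr ht hyr hxt
    have hmul : ∀ (u : R n K) {f : R n K}, f ∈ s.J → s.L (u * f) = 0 := fun u f hf =>
      hL _ (Ideal.mul_mem_left _ u hf)
    -- the four values
    have v1 : s.L ((x * p - y * q) * g) = 0 := by
      have e : (x * p - y * q) * g = p * (x * g - s.ω * q) - q * (y * g - s.ω * p) := by ring
      rw [e, map_sub, hmul p hxg, hmul q hyg, sub_zero]
    have v2 : s.L ((x * r - y * t) * a) = 0 := by
      have e : (x * r - y * t) * a = r * (x * a - s.ω * t) - t * (y * a - s.ω * r) := by ring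
      rw [e, map_sub, hmul r hxt, hmul t hyr, sub_zero]
    have v3 : s.L ((x * r - y * t) * g) = - s.L ((x * p - y * q) * a) := by
      have e : (x * r - y * t) * g + (x * p - y * q) * a =
          r * (x * g - s.ω * q) - t * (y * g - s.ω * p) + (p * (x * a - s.ω * t) - q * (y * a - s.ω * r)) := by ring
      have h5 : s.L ((x * r - y * t) * g + (x * p - y * q) * a) = 0 := by
        rw [e, map_add, map_sub, map_sub, hmul r hxg, hmul t hyg, hmul p hxt, hmul q hyr]
        simp
      rw [map_add] at h5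
      exact eq_neg_of_add_eq_zero_left h5
    -- two strict inclusions
    set W : Submodule K (R n K) := s.Jd (k + 1) ⊔ Submodule.span K {x * p - y * q} with hW
    have hWle : W ≤ s.KP := by
      refine sup_le h1 ?_
      rw [Submodule.span_singleton_le_iff_mem]
      exact he1
    have hlt1 : s.Jd (k + 1) < W := by
      refine lt_of_le_of_ne le_sup_left fun heq => hne ?_
      have h6 : x * p - y * q ∈ W := Submodule.mem_sup_right (Submodule.mem_span_singleton_self _)
      rw [← heq] at h6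
      exact h6.1
    have hlt2 : W < s.KP := by
      refine lt_of_le_of_ne hWle fun heq => hLa ?_
      have h6 : x * r - y * t ∈ W := by
        rw [heq]
        exact he2
      obtain ⟨j, hj, u, hu, hju⟩ := Submodule.mem_sup.1 h6
      obtain ⟨c, rfl⟩ := Submodule.mem_span_singleton.1 hu
      have h7 : s.L ((x * r - y * t) * g) = 0 := by
        rw [← hju, add_mul, map_add, mul_comm j g, hmul g hj.1, smul_mul_assoc, map_smul, v1, smul_zero, add_zero]
      rw [v3, neg_eq_zero] at h7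
      exact h7
    have hfW : FiniteDimensional K W := Submodule.finiteDimensional_of_le hWle
    have c1 := Submodule.finrank_lt_finrank_of_lt hlt1
    have c2 := Submodule.finrank_lt_finrank_of_lt hlt2
    omega

end Pool.Agent.K4H40.NS
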