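import Pool.Agent.K4H72.Til.Spec

open Set

namespace Pool.Agent.K4H72.Til

theorem dirichlet_real {ι : Type*} [Fintype ι] (x : ι → ℝ) (δ : ℝ) (hδ : 0 < δ) :
    ∃ M : ℕ, 0 < M ∧ ∀ i, ∃ k : ℤ, |(M : ℝ) * x i - k| ≤ δ := by
  have hc : IsCompact (Set.Icc (0 : ι → ℝ) 1) := isCompact_Icc
  have hu : ∀ m : ℕ, (fun i => Int.fract ((m : ℝ) * x i)) ∈ Set.Icc (0 : ι → ℝ) 1 := by
    intro m
    refine ⟨fun i => Int.fract_nonneg _, fun i => (Int.fract_lt_one _).le⟩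
  obtain ⟨a, -, φ, hφ, hlim⟩ := hc.tendsto_subseq hu
  have hcs := hlim.cauchySeq
  rw [Metric.cauchySeq_iff] at hcs
  obtain ⟨N, hN⟩ := hcs δ hδ
  have h1 := hN (N + 1) (by omega) N le_rfl
  have h2 : φ N < φ (N + 1) := hφ (Nat.lt_succ_self N)
  refine ⟨φ (N + 1) - φ N, by omega, fun i => ?_⟩
  refine ⟨⌊((φ (N + 1) : ℕ) : ℝ) * x i⌋ - ⌊((φ N : ℕ) : ℝ) * x i⌋, ?_⟩
  have h3 := (dist_pi_lt_iff hδ).1 h1 i
  simp only [Function.comp] at h3
  rw [Real.dist_eq] at h3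
  rw [Nat.cast_sub h2.le]
  push_cast
  have e : ((φ (N + 1) : ℝ) - (φ N : ℝ)) * x i - ((⌊(φ (N + 1) : ℝ) * x i⌋ : ℝ) - (⌊(φ N : ℝ) * x i⌋ : ℝ)) =
      Int.fract ((φ (N + 1) : ℝ) * x i) - Int.fract ((φ N : ℝ) * x i) := by
    unfold Int.fract
    ring
  rw [e]
  exact h3.le

theorem coords (z : ℂ) : z = (((z.re - z.im / Real.sqrt 3 : ℝ)) : ℂ) + ((2 * z.im / Real.sqrt 3 : ℝ) : ℂ) * ζ := by
  have h3 : Real.sqrt 3 ≠ 0 := by positivity
  apply Complex.ext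
  · simp [ζ]
    field_simp
    ring
  · simp [ζ]
    field_simp

theorem dirichlet_E {ι : Type*} [Fintype ι] (z : ι → ℂ) (δ : ℝ) (hδ : 0 < δ) :
    ∃ M : ℕ, 0 < M ∧ ∀ i, ∃ n : ℤ × ℤ, ‖(M : ℂ) * z i - E n‖ ≤ δ := by
  have hc : 0 < 1 + ‖ζ‖ := by positivity
  obtain ⟨M, hM, h⟩ := dirichlet_real (fun p : ι × Bool => if p.2 then (z p.1).re - (z p.1).im / Real.sqrt 3
    else 2 * (z p.1).im / Real.sqrt 3) (δ / (1 + ‖ζ‖)) (by positivity)
  refine ⟨M, hM, fun i => ?_⟩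
  obtain ⟨k, hk⟩ := h (i, true)
  obtain ⟨l, hl⟩ := h (i, false)
  simp only [if_true, Bool.false_eq_true, if_false] at hk hl
  refine ⟨(k, l), ?_⟩
  have e : (M : ℂ) * z i - E (k, l) =
      (((M : ℝ) * ((z i).re - (z i).im / Real.sqrt 3) - k : ℝ) : ℂ) +
        (((M : ℝ) * (2 * (z i).im / Real.sqrt 3) - l : ℝ) : ℂ) * ζ := by
    conv_lhs => rw [coords (z i)]
    unfold E
    push_cast
    ring
  rw [e]
  refine (norm_add_le _ _).trans ?_
  rw [norm_mul, Complex.norm_real, Complex.norm_real, Real.norm_eq_abs, Real.norm_eq_abs]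
  have h1 : |(M : ℝ) * (2 * (z i).im / Real.sqrt 3) - l| * ‖ζ‖ ≤ δ / (1 + ‖ζ‖) * ‖ζ‖ :=
    mul_le_mul_of_nonneg_right hl (norm_nonneg _)
  have h2 : δ / (1 + ‖ζ‖) + δ / (1 + ‖ζ‖) * ‖ζ‖ = δ := by
    field_simp
  linarith

/-- T1 -/
theorem approx (F : Set ℂ) (hF : F.Finite) (η : ℝ) (hη : 0 < η) :
    ∃ M : ℕ, 0 < M ∧ ∃ φ : AddSubgroup.closure F →+ ℤ × ℤ,
      ∀ f (hf : f ∈ F), ‖(M : ℂ) * f - E (φ ⟨f, AddSubgroup.subset_closure hf⟩)‖ ≤ η := by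
  classical
  have : Finite F := hF.to_subtype
  have hfg : AddGroup.FG (AddSubgroup.closure F) := AddGroup.closure_finite_fg F
  have hfin : Module.Finite ℤ (AddSubgroup.closure F) := Module.Finite.iff_addGroup_fg.2 hfg
  have hfree : Module.Free ℤ (AddSubgroup.closure F) := Module.free_of_finite_type_torsion_free'
  let b := Module.Free.chooseBasis ℤ (AddSubgroup.closure F)
  obtain ⟨C, hC⟩ := (Set.finite_range (fun f : F => ∑ i, |((b.repr ⟨f.1, AddSubgroup.subset_closure f.2⟩ i : ℤ) : ℝ)|)).bddAbove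
  have hC' : ∀ f (hf : f ∈ F), ∑ i, |((b.repr ⟨f, AddSubgroup.subset_closure hf⟩ i : ℤ) : ℝ)| ≤ |C| :=
    fun f hf => (hC ⟨⟨f, hf⟩, rfl⟩).trans (le_abs_self C)
  obtain ⟨M, hM, h⟩ := dirichlet_E (fun i => ((b i : AddSubgroup.closure F) : ℂ)) (η / (|C| + 1)) (by positivity)
  choose n hn using h
  refine ⟨M, hM, (b.constr ℤ n).toAddMonoidHom, fun f hf => ?_⟩
  set g : AddSubgroup.closure F := ⟨f, AddSubgroup.subset_closure hf⟩ with hg
  have hE : ∀ (s : Finset (Module.Free.ChooseBasisIndex ℤ (AddSubgroup.closure F))) (c : _ → ℤ),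
      E (∑ i ∈ s, c i • n i) = ∑ i ∈ s, (c i : ℂ) * E (n i) := by
    intro s c
    induction s using Finset.induction_on with
    | empty => simp [E]
    | insert a s ha ih =>
      rw [Finset.sum_insert ha, Finset.sum_insert ha, ← ih]
      unfold E
      simp only [Prod.fst_add, Prod.snd_add, Prod.smul_fst, Prod.smul_snd, smul_eq_mul]
      push_cast
      ring
  have h1 : (b.constr ℤ n).toAddMonoidHom g = ∑ i, b.repr g i • n i := by
    show b.constr ℤ n g = _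
    rw [b.constr_apply_fintype ℤ n g]
    rfl
  have h2 : (f : ℂ) = ∑ i, ((b.repr g i : ℤ) : ℂ) * ((b i : AddSubgroup.closure F) : ℂ) := by
    have h3 : g = ∑ i, b.repr g i • b i := (b.sum_repr g).symm
    have h4 : (g : ℂ) = ((∑ i, b.repr g i • b i : AddSubgroup.closure F) : ℂ) := congrArg _ h3
    rw [AddSubgroup.val_finset_sum] at h4
    have h5 : (g : ℂ) = f := rfl
    rw [← h5, h4]
    refine Finset.sum_congr rfl fun i _ => ?_
    rw [AddSubgroup.coe_zsmul, zsmul_eq_mul]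
  rw [h1, hE]
  conv_lhs => rw [h2]
  rw [Finset.mul_sum, ← Finset.sum_sub_distrib]
  have h6 : ∀ i, (M : ℂ) * (((b.repr g i : ℤ) : ℂ) * ((b i : AddSubgroup.closure F) : ℂ)) - ((b.repr g i : ℤ) : ℂ) * E (n i) =
      ((b.repr g i : ℤ) : ℂ) * ((M : ℂ) * ((b i : AddSubgroup.closure F) : ℂ) - E (n i)) := fun i => by ring
  simp only [h6]
  refine (norm_sum_le _ _).trans ?_
  calc ∑ i, ‖((b.repr g i : ℤ) : ℂ) * ((M : ℂ) * ((b i : AddSubgroup.closure F) : ℂ) - E (n i))‖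
      ≤ ∑ i, |((b.repr g i : ℤ) : ℝ)| * (η / (|C| + 1)) := by
        refine Finset.sum_le_sum fun i _ => ?_
        rw [norm_mul, Complex.norm_intCast]
        exact mul_le_mul_of_nonneg_left (hn i) (abs_nonneg _)
    _ = (∑ i, |((b.repr g i : ℤ) : ℝ)|) * (η / (|C| + 1)) := (Finset.sum_mul _ _ _).symm
    _ ≤ |C| * (η / (|C| + 1)) := mul_le_mul_of_nonneg_right (hC' f hf) (by positivity)
    _ ≤ η := by
        rw [← mul_div_assoc, div_le_iff₀ (by positivity)]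
        nlinarith [abs_nonneg C]

end Pool.Agent.K4H72.Til
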